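import Pool.Agent.Y315.OP.Stm

/-!
# OP-FIN: an admissible potential with finite eigenvalue

Smooth bumps with disjoint supports in the unit ball give finite trial energies.
-/

set_option autoImplicit false

open MeasureTheory Filter Topology
open scoped ContDiff ENNReal

namespace Pool.Agent.Y249.OP

open Pool.Agent.Y315 Pool.Agent.Y315.OP

/-- orthogonality by disjoint supports, pointwise -/
theorem enorm_sum_sq {F : Type*} [NormedAddCommGroup F] [NormedSpace ℝ F] {k : ℕ}
    (c : Fin k → ℝ) (a : Fin k → F) (h : ∀ i j, i ≠ j → a i = 0 ∨ a j = 0) :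
    ‖∑ i, c i • a i‖ₑ ^ 2 = ∑ i, ‖c i‖ₑ ^ 2 * ‖a i‖ₑ ^ 2 := by
  classical
  by_cases hall : ∀ i, a i = 0
  · simp [hall]
  · push Not at hall
    obtain ⟨i0, hi0⟩ := hall
    have hz : ∀ j, j ≠ i0 → a j = 0 := by
      intro j hj
      rcases h i0 j (Ne.symm hj) with h1 | h1
      · exact absurd h1 hi0
      · exact h1
    rw [Finset.sum_eq_single i0, Finset.sum_eq_single i0]
    · rw [enorm_smul, mul_pow]
    · intro j _ hj
      simp [hz j hj]
    · intro hh
      exact absurd (Finset.mem_univ _) hh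
    · intro j _ hj
      simp [hz j hj]
    · intro hh
      exact absurd (Finset.mem_univ _) hh

/-- the centres -/
noncomputable def cen (d k : ℕ) (hd : 1 ≤ d) (i : Fin k) : E d :=
  EuclideanSpace.single (⟨0, hd⟩ : Fin d) ((i : ℝ) / (k + 1))

/-- the bumps -/
noncomputable def bmp (d k : ℕ) (hd : 1 ≤ d) (i : Fin k) : ContDiffBump (cen d k hd i) where
  rIn := 1 / (4 * (k + 1))
  rOut := 1 / (3 * (k + 1))
  rIn_pos := by positivity
  rIn_lt_rOut := by
    apply one_div_lt_one_div_of_lt (by positivity)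
    have : (0 : ℝ) < k + 1 := by positivity
    nlinarith

theorem cen_dist (d k : ℕ) (hd : 1 ≤ d) (i j : Fin k) (hij : i ≠ j) :
    1 / ((k : ℝ) + 1) ≤ dist (cen d k hd i) (cen d k hd j) := by
  have h1 : dist (cen d k hd i) (cen d k hd j) = |(i : ℝ) / (k + 1) - (j : ℝ) / (k + 1)| := by
    rw [cen, cen, PiLp.dist_single_same, Real.dist_eq]
  rw [h1, ← sub_div, abs_div, abs_of_pos (by positivity : (0 : ℝ) < (k : ℝ) + 1)]
  apply div_le_div_of_nonneg_right _ (by positivity)
  have h2 : ((i : ℕ) : ℤ) ≠ ((j : ℕ) : ℤ) := by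
    intro h
    apply hij
    exact Fin.ext (by exact_mod_cast h)
  have h3 : (1 : ℤ) ≤ |((i : ℕ) : ℤ) - ((j : ℕ) : ℤ)| := Int.one_le_abs (sub_ne_zero.mpr h2)
  have h4 : ((1 : ℤ) : ℝ) ≤ ((|((i : ℕ) : ℤ) - ((j : ℕ) : ℤ)| : ℤ) : ℝ) := by exact_mod_cast h3
  rw [Int.cast_abs] at h4
  push_cast at h4
  simpa using h4

theorem cen_norm (d k : ℕ) (hd : 1 ≤ d) (i : Fin k) :
    ‖cen d k hd i‖ ≤ 1 - 2 / ((k : ℝ) + 1) := by
  rw [cen, PiLp.norm_single, Real.norm_of_nonneg (by positivity)]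
  have hk : (0 : ℝ) < k + 1 := by positivity
  have h1 : (1 : ℝ) - 2 / ((k : ℝ) + 1) = (k - 1) / (k + 1) := by
    field_simp
    ring
  rw [h1]
  apply div_le_div_of_nonneg_right _ hk.le
  have h2 : (i : ℕ) + 1 ≤ k := i.2
  have h3 : (((i : ℕ) + 1 : ℕ) : ℝ) ≤ (k : ℝ) := by exact_mod_cast h2
  push_cast at h3
  linarith

theorem disj (d k : ℕ) (hd : 1 ≤ d) (i j : Fin k) (hij : i ≠ j) (x : E d) :
    x ∉ tsupport (bmp d k hd i) ∨ x ∉ tsupport (bmp d k hd j) := by
  by_contra hcon
  push Not at hcon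
  obtain ⟨h1, h2⟩ := hcon
  rw [ContDiffBump.tsupport_eq, Metric.mem_closedBall] at h1 h2
  have h3 := cen_dist d k hd i j hij
  have h4 : dist (cen d k hd i) (cen d k hd j) ≤ 1 / (3 * ((k : ℝ) + 1)) + 1 / (3 * (k + 1)) := by
    calc dist (cen d k hd i) (cen d k hd j) ≤ dist (cen d k hd i) x + dist x (cen d k hd j) :=
          dist_triangle _ _ _
      _ ≤ _ := by
          rw [dist_comm (cen d k hd i) x]
          exact add_le_add h1 h2
  have h5 : 1 / (3 * ((k : ℝ) + 1)) + 1 / (3 * (k + 1)) < 1 / ((k : ℝ) + 1) := by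
    have hk : (0 : ℝ) < k + 1 := by positivity
    rw [← sub_pos]
    have : 1 / ((k : ℝ) + 1) - (1 / (3 * ((k : ℝ) + 1)) + 1 / (3 * (k + 1)))
        = 1 / (3 * (k + 1)) := by
      field_simp
      ring
    rw [this]
    positivity
  linarith

theorem in_ball (d k : ℕ) (hd : 1 ≤ d) (i : Fin k) (x : E d)
    (hx : x ∈ tsupport (bmp d k hd i)) : ‖x‖ < 1 := by
  rw [ContDiffBump.tsupport_eq, Metric.mem_closedBall] at hx
  have h1 := cen_norm d k hd i
  have h2 : ‖x‖ ≤ ‖cen d k hd i‖ + 1 / (3 * ((k : ℝ) + 1)) := by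
    calc ‖x‖ = ‖cen d k hd i + (x - cen d k hd i)‖ := by rw [add_sub_cancel]
      _ ≤ ‖cen d k hd i‖ + ‖x - cen d k hd i‖ := norm_add_le _ _
      _ ≤ _ := by
          rw [← dist_eq_norm]
          exact add_le_add le_rfl hx
  have h5 : 1 / (3 * ((k : ℝ) + 1)) < 2 / ((k : ℝ) + 1) := by
    have hk : (0 : ℝ) < k + 1 := by positivity
    rw [← sub_pos]
    have : 2 / ((k : ℝ) + 1) - (1 / (3 * ((k : ℝ) + 1)))
        = 5 / (3 * (k + 1)) := by
      field_simp
      ring
    rw [this]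
    positivity
  linarith

/-- the trial functions -/
noncomputable def tu (d k : ℕ) (hd : 1 ≤ d) (i : Fin k) : E d → ℝ := fun x => bmp d k hd i x

/-- their gradients -/
noncomputable def tg (d k : ℕ) (hd : 1 ≤ d) (i : Fin k) : E d → E d :=
  fun x => gradient (tu d k hd i) x

theorem tu_cd (d k : ℕ) (hd : 1 ≤ d) (i : Fin k) : ContDiff ℝ ∞ (tu d k hd i) :=
  (bmp d k hd i).contDiff

theorem tu_cs (d k : ℕ) (hd : 1 ≤ d) (i : Fin k) : HasCompactSupport (tu d k hd i) :=
  (bmp d k hd i).hasCompactSupport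

theorem tg_inner (d k : ℕ) (hd : 1 ≤ d) (i : Fin k) (x v : E d) :
    inner ℝ (tg d k hd i x) v = fderiv ℝ (tu d k hd i) x v := by
  rw [tg, gradient, InnerProductSpace.toDual_symm_apply]

theorem tg_cont (d k : ℕ) (hd : 1 ≤ d) (i : Fin k) : Continuous (tg d k hd i) := by
  have h1 : Continuous (fderiv ℝ (tu d k hd i)) :=
    (tu_cd d k hd i).continuous_fderiv (by simp)
  exact (InnerProductSpace.toDual ℝ (E d)).symm.continuous.comp h1

theorem tg_zero (d k : ℕ) (hd : 1 ≤ d) (i : Fin k) (x : E d)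
    (hx : x ∉ tsupport (bmp d k hd i)) : tg d k hd i x = 0 := by
  have h1 : fderiv ℝ (tu d k hd i) x = 0 := by
    have h2 := support_fderiv_subset ℝ (f := tu d k hd i)
    by_contra hne
    exact hx (h2 hne)
  rw [tg, gradient, h1, map_zero]

theorem tu_zero (d k : ℕ) (hd : 1 ≤ d) (i : Fin k) (x : E d)
    (hx : x ∉ tsupport (bmp d k hd i)) : tu d k hd i x = 0 :=
  image_eq_zero_of_notMem_tsupport hx

theorem tg_cs (d k : ℕ) (hd : 1 ≤ d) (i : Fin k) : HasCompactSupport (tg d k hd i) := by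
  apply HasCompactSupport.intro (bmp d k hd i).hasCompactSupport
  intro x hx
  exact tg_zero d k hd i x hx

theorem wg (d k : ℕ) (hd : 1 ≤ d) (i : Fin k) : WGrad (tu d k hd i) (tg d k hd i) := by
  intro φ hφ v
  simp only [tg_inner]
  have c1 : Continuous (fun x => fderiv ℝ (tu d k hd i) x v) := by
    have h1 : Continuous (fderiv ℝ (tu d k hd i)) :=
      (tu_cd d k hd i).continuous_fderiv (by simp)
    exact h1.clm_apply continuous_const
  have c2 : Continuous (fun x => fderiv ℝ φ x v) := by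
    have h1 : Continuous (fderiv ℝ φ) := hφ.1.continuous_fderiv (by simp)
    exact h1.clm_apply continuous_const
  apply integral_mul_fderiv_eq_neg_fderiv_mul_of_integrable
  · apply Continuous.integrable_of_hasCompactSupport (c1.mul hφ.1.continuous)
    exact hφ.2.mul_left
  · apply Continuous.integrable_of_hasCompactSupport ((tu_cd d k hd i).continuous.mul c2)
    exact (tu_cs d k hd i).mul_right
  · apply Continuous.integrable_of_hasCompactSupport
      ((tu_cd d k hd i).continuous.mul hφ.1.continuous)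
    exact (tu_cs d k hd i).mul_right
  · intro x _
    exact (tu_cd d k hd i).differentiable (by simp) x
  · intro x _
    exact hφ.1.differentiable (by simp) x

open scoped Classical in
/-- the potential -/
noncomputable def pot (d : ℕ) (p : ℝ) : E d → ℝ≥0∞ :=
  fun x => if x ∈ Metric.ball (0 : E d) 1 then (volume (Metric.ball (0 : E d) 1)) ^ (1 / p) else ⊤

theorem pot_meas (d : ℕ) (p : ℝ) : Measurable (pot d p) :=
  Measurable.ite (p := fun x => x ∈ Metric.ball (0 : E d) 1) Metric.isOpen_ball.measurableSet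
    measurable_const measurable_const

theorem pot_mass (d : ℕ) (p : ℝ) (hp : 0 < p) : mass p (pot d p) ≤ 1 := by
  have hv0 : volume (Metric.ball (0 : E d) 1) ≠ 0 :=
    (Metric.measure_ball_pos volume (0 : E d) one_pos).ne'
  have hvt : volume (Metric.ball (0 : E d) 1) ≠ ⊤ := measure_ball_lt_top.ne
  have h1 : ∀ x : E d, (pot d p x) ^ (-p) = (Metric.ball (0 : E d) 1).indicator
      (fun _ => (volume (Metric.ball (0 : E d) 1))⁻¹) x := by
    intro x
    by_cases hx : x ∈ Metric.ball (0 : E d) 1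
    · rw [Set.indicator_of_mem hx, pot, if_pos hx, ← ENNReal.rpow_mul]
      have : 1 / p * -p = -1 := by field_simp
      rw [this, ENNReal.rpow_neg_one]
    · rw [Set.indicator_of_notMem hx, pot, if_neg hx, ENNReal.top_rpow_of_neg (by linarith)]
  unfold mass
  simp only [h1]
  rw [lintegral_indicator Metric.isOpen_ball.measurableSet, lintegral_const,
    Measure.restrict_apply MeasurableSet.univ, Set.univ_inter, ENNReal.inv_mul_cancel hv0 hvt]

theorem pot_fin (d : ℕ) (p : ℝ) (hp : 0 < p) (x : E d) (hx : ‖x‖ < 1) :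
    pot d p x = (volume (Metric.ball (0 : E d) 1)) ^ (1 / p) := by
  rw [pot, if_pos (by simpa using hx)]

theorem lint_lt {F : Type*} [NormedAddCommGroup F] {d : ℕ} (a : E d → F) (ha : Continuous a)
    (hc : HasCompactSupport a) : ∫⁻ x, ‖a x‖ₑ ^ 2 < ⊤ := by
  have h1 : MemLp a 2 := ha.memLp_of_hasCompactSupport hc
  have h2 := lintegral_rpow_enorm_lt_top_of_eLpNorm_lt_top (p := 2) (by norm_num) (by norm_num) h1.2
  simpa using h2

theorem pot_lint (d k : ℕ) (p : ℝ) (hp : 0 < p) (hd : 1 ≤ d) (i : Fin k) :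
    ∫⁻ x, pot d p x * ‖tu d k hd i x‖ₑ ^ 2 < ⊤ := by
  have h1 : ∀ x, pot d p x * ‖tu d k hd i x‖ₑ ^ 2
      = (volume (Metric.ball (0 : E d) 1)) ^ (1 / p) * ‖tu d k hd i x‖ₑ ^ 2 := by
    intro x
    by_cases hx : x ∈ tsupport (bmp d k hd i)
    · rw [pot_fin d p hp x (in_ball d k hd i x hx)]
    · rw [tu_zero d k hd i x hx]
      simp
  simp only [h1]
  rw [lintegral_const_mul' _ _ (ENNReal.rpow_ne_top_of_nonneg (by positivity)
    measure_ball_lt_top.ne)]
  exact ENNReal.mul_lt_top (ENNReal.rpow_lt_top_of_nonneg (by positivity)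
    measure_ball_lt_top.ne) (lint_lt _ (tu_cd d k hd i).continuous (tu_cs d k hd i))

theorem sq_pos (d k : ℕ) (hd : 1 ≤ d) (i : Fin k) : OP.sq (tu d k hd i) ≠ 0 := by
  unfold OP.sq
  intro h0
  have hc : Continuous (tu d k hd i) := (tu_cd d k hd i).continuous
  have hm : Measurable (fun x => ‖tu d k hd i x‖ₑ ^ 2) := by
    exact (hc.measurable.enorm).pow_const 2
  rw [lintegral_eq_zero_iff hm] at h0
  have h1 : ∀ᵐ x : E d, tu d k hd i x = 0 := by
    filter_upwards [h0] with x hx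
    simpa using hx
  have h2 : tu d k hd i = 0 := by
    have h5 : tu d k hd i = fun _ => (0 : ℝ) :=
      (Continuous.ae_eq_iff_eq (volume : Measure (E d)) hc continuous_const).mp h1
    exact h5
  have h3 : tu d k hd i (cen d k hd i) = 1 := by
    apply ContDiffBump.one_of_mem_closedBall
    simp only [Metric.mem_closedBall, dist_self]
    exact (bmp d k hd i).rIn_pos.le
  rw [h2] at h3
  simp at h3

theorem fin : S_FIN := by
  intro d p k hd hp
  refine ⟨pot d p, pot_meas d p, pot_mass d p hp, ?_⟩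
  -- the energies
  set e : Fin k → ℝ≥0∞ := fun i => energy (pot d p) (tu d k hd i) (tg d k hd i) with he
  set L : ℝ≥0∞ := ∑ i, e i / OP.sq (tu d k hd i) with hL
  have het : ∀ i, e i < ⊤ := by
    intro i
    exact ENNReal.add_lt_top.mpr ⟨lint_lt _ (tg_cont d k hd i) (tg_cs d k hd i),
      pot_lint d k p hp hd i⟩
  have hst : ∀ i, OP.sq (tu d k hd i) ≠ ⊤ := fun i =>
    (lint_lt _ (tu_cd d k hd i).continuous (tu_cs d k hd i)).ne
  have hs0 : ∀ i, OP.sq (tu d k hd i) ≠ 0 := fun i => sq_pos d k hd i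
  have hLt : L < ⊤ := by
    rw [hL]
    apply ENNReal.sum_lt_top.mpr
    intro i _
    exact ENNReal.div_lt_top (het i).ne (hs0 i)
  refine lt_of_le_of_lt (sInf_le ?_) hLt
  have hmu : ∀ i, Measurable (fun x => ‖tu d k hd i x‖ₑ ^ 2) := fun i =>
    ((tu_cd d k hd i).continuous.measurable.enorm).pow_const 2
  have hmg : ∀ i, Measurable (fun x => ‖tg d k hd i x‖ₑ ^ 2) := fun i =>
    ((tg_cont d k hd i).measurable.enorm).pow_const 2
  have hpu : ∀ (c : Fin k → ℝ) (x : E d), ‖lc c (tu d k hd) x‖ₑ ^ 2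
      = ∑ i, ‖c i‖ₑ ^ 2 * ‖tu d k hd i x‖ₑ ^ 2 := by
    intro c x
    have := enorm_sum_sq c (fun i => tu d k hd i x) (by
      intro i j hij
      rcases disj d k hd i j hij x with h | h
      · exact Or.inl (tu_zero d k hd i x h)
      · exact Or.inr (tu_zero d k hd j x h))
    simpa [lc, smul_eq_mul] using this
  have hpg : ∀ (c : Fin k → ℝ) (x : E d), ‖lcg c (tg d k hd) x‖ₑ ^ 2
      = ∑ i, ‖c i‖ₑ ^ 2 * ‖tg d k hd i x‖ₑ ^ 2 := by
    intro c x
    have := enorm_sum_sq c (fun i => tg d k hd i x) (by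
      intro i j hij
      rcases disj d k hd i j hij x with h | h
      · exact Or.inl (tg_zero d k hd i x h)
      · exact Or.inr (tg_zero d k hd j x h))
    simpa [lcg] using this
  have hsq : ∀ c : Fin k → ℝ, OP.sq (lc c (tu d k hd)) = ∑ i, ‖c i‖ₑ ^ 2 * OP.sq (tu d k hd i) := by
    intro c
    unfold OP.sq
    simp only [hpu c]
    rw [lintegral_finset_sum _ (fun i _ => (hmu i).const_mul _)]
    apply Finset.sum_congr rfl
    intro i _
    rw [lintegral_const_mul _ (hmu i)]
  have hen : ∀ c : Fin k → ℝ, energy (pot d p) (lc c (tu d k hd)) (lcg c (tg d k hd))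
      = ∑ i, ‖c i‖ₑ ^ 2 * e i := by
    intro c
    unfold energy
    simp only [hpu c, hpg c]
    rw [lintegral_finset_sum _ (fun i _ => (hmg i).const_mul _)]
    have h2 : ∀ x : E d, pot d p x * ∑ i, ‖c i‖ₑ ^ 2 * ‖tu d k hd i x‖ₑ ^ 2
        = ∑ i, ‖c i‖ₑ ^ 2 * (pot d p x * ‖tu d k hd i x‖ₑ ^ 2) := by
      intro x
      rw [Finset.mul_sum]
      apply Finset.sum_congr rfl
      intro i _
      ring
    simp only [h2]
    have hpm : ∀ i, Measurable (fun x => pot d p x * ‖tu d k hd i x‖ₑ ^ 2) := fun i =>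
      (pot_meas d p).mul (hmu i)
    rw [lintegral_finset_sum _ (fun i _ => ((hpm i).const_mul _)), ← Finset.sum_add_distrib]
    apply Finset.sum_congr rfl
    intro i _
    rw [lintegral_const_mul _ (hmg i), lintegral_const_mul _ (hpm i),
      ← mul_add]
    rfl
  refine ⟨tu d k hd, tg d k hd, ?_, ?_, ?_⟩
  · intro i
    exact ⟨(tu_cd d k hd i).continuous.memLp_of_hasCompactSupport (tu_cs d k hd i),
      (tg_cont d k hd i).memLp_of_hasCompactSupport (tg_cs d k hd i), wg d k hd i,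
      pot_lint d k p hp hd i⟩
  · intro c hc h0
    apply hc
    rw [hsq c] at h0
    ext i
    have h1 := (Finset.sum_eq_zero_iff.mp h0) i (Finset.mem_univ i)
    rcases mul_eq_zero.mp h1 with h2 | h2
    · simpa using h2
    · exact absurd h2 (hs0 i)
  · intro c
    rw [hsq c, hen c, Finset.mul_sum]
    apply Finset.sum_le_sum
    intro i _
    have h1 : e i ≤ L * OP.sq (tu d k hd i) := by
      have h2 : e i / OP.sq (tu d k hd i) ≤ L := by
        rw [hL]
        exact Finset.single_le_sum (f := fun i => e i / OP.sq (tu d k hd i))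
          (fun j _ => bot_le) (Finset.mem_univ i)
      calc e i = e i / OP.sq (tu d k hd i) * OP.sq (tu d k hd i) := by
            rw [ENNReal.div_mul_cancel (hs0 i) (hst i)]
        _ ≤ L * OP.sq (tu d k hd i) := by gcongr
    calc ‖c i‖ₑ ^ 2 * e i ≤ ‖c i‖ₑ ^ 2 * (L * OP.sq (tu d k hd i)) := by gcongr
      _ = L * (‖c i‖ₑ ^ 2 * OP.sq (tu d k hd i)) := by ring

end Pool.Agent.Y249.OP
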